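import Pool.Agent.R12.GoodMain

set_option autoImplicit false

/-!
# The number of labels of good edge-labelings is not bounded in terms of the treewidth

For some `k`, the good graphs of treewidth `k` need arbitrarily many distinct labels.  The example
is a chain of gadgets: seven vertices carrying two four-cycles through a common vertex `w` and an
edge between the vertices opposite to `w`.  In every good edge-labeling of the gadget the label of
that edge lies strictly between the labels of its two neighbours in the first four-cycle.
-/

namespace Pool.Agent.Results.MP_67e79f_co.Unbounded

open Pool.Agent.R12.GoodLab Pool.Agent.R545.Stc

/-- For some `k`, for every `c` there is a finite good graph of treewidth `k` that is not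
`c`-good. -/
theorem result : ∃ k : ℕ, ∀ c : ℕ, ∃ (V : Type) (_ : Fintype V) (G : SimpleGraph V),
    treewidth G = k ∧ Good G ∧ ¬ CGood G c :=
  main

end Pool.Agent.Results.MP_67e79f_co.Unbounded
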